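import Pool.Agent.MP_bd94e8_al.H89.Spec

/-! Generators of the objects of the fat problem. -/

set_option autoImplicit false

namespace Pool.Agent.MP_bd94e8_al.H89

open Module Function

theorem genF (hMor : SMor) (hV : SV12) (hVV : SVV) (hG : SGram) (hP : SPush) : SGenF := by
  intro k F _ _ _ _ Pt ι _ _ _ P Pf val ht S _ h L hFl hH hR hVal hMo hDG V _ _ _ M hM
  obtain ⟨M', -, hhom, hgen⟩ := (hMor k F Pt ι Unit Pf S hMo).2 h V M
  have hM' : M'.Indec := ⟨hM.1, fun e he => hM.2 e ((hhom e).2 he)⟩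
  obtain ⟨T, I, O, _, _, _, _, J, π, ρ, N, hC, hT, hW, hPu, -, d, hNg, hroot⟩ := hDG V M' hM'
  obtain ⟨hU, -, -, hr, -⟩ := hG k F T I O J L hT hW
  obtain ⟨hMon, hV1, -⟩ := hV k F Pt ι P Pf val ht S h hFl hH hR hVal T I O J π L hC hT hW
  have hpush := (hP k F _ ι Unit (Pf.sub S h) T I O J π ρ V N M' hC hPu).2.2.1
  have hvt : ∀ p : {p // S p}, (Pf.sub S h).vt p = P.vt p.1 := fun p => congrFun hVal.vt p.1
  by_cases hz : ∃ t, P.vt (π t).1 ∈ val ∧ d (J.vt t) ≠ 0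
  · right
    obtain ⟨t₀, ht₀, hd₀⟩ := hz
    refine hgen _ (hpush _ _ (fun t htd => ?_) hNg)
    rw [hvt]
    by_contra hc
    have hnv : P.vt (π t).1 ∉ val := fun e => hc (Or.inl e)
    obtain ⟨p, q, r, hp, hq, hr', hpq, hpr, hqr⟩ : Tri3 P.vt (P.vt (π t).1) := by
      by_contra e; exact hc (Or.inr e)
    have key : ∀ p, P.vt p = P.vt (π t).1 → ∃ t', J.vt t' = J.vt t ∧ (π t').1 = p := by
      intro p hp
      obtain ⟨t', h1, h2⟩ := hC.full t ⟨p, hR.1 p (hp ▸ hnv)⟩ (by rw [hvt, hvt]; exact hp)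
      exact ⟨t', h1, by rw [h2]⟩
    obtain ⟨t₁, a₁, b₁⟩ := key p hp
    obtain ⟨t₂, a₂, b₂⟩ := key q hq
    obtain ⟨t₃, a₃, b₃⟩ := key r hr'
    have hg : ∀ t', J.vt t' = J.vt t → gram J (.inl (J.vt t)) (.inr (J.pk t')) = -1 := by
      intro t' e
      simp only [gram]
      rw [if_pos ⟨t', e, rfl⟩]
    have hx : ∀ i, d i ≠ 0 → 0 < vec d (fun o => finrank F (LinearMap.range (N.ε o))) (.inl i) :=
      fun i e => by simpa [vec] using Nat.pos_of_ne_zero e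
    have h0 : 0 ≤ vec d (fun o => finrank F (LinearMap.range (N.ε o))) := by
      rintro (i | o) <;> simp [vec]
    rcases (hVV I O (gram J) _ hU hMon _ h0 (hr _ _ hroot) (J.vt t₀) ⟨t₀, rfl, ht₀⟩
      (hx _ hd₀)).2.2 hV1 (J.vt t) _ _ _ (hx _ htd) (hg t₁ a₁) (hg t₂ a₂) (hg t₃ a₃) with e | e | e
    · exact hpq (by rw [← b₁, ← b₂, hT.dist _ _ (a₁.trans a₂.symm) e])
    · exact hpr (by rw [← b₁, ← b₃, hT.dist _ _ (a₁.trans a₃.symm) e])
    · exact hqr (by rw [← b₂, ← b₃, hT.dist _ _ (a₂.trans a₃.symm) e])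
  · left
    refine hgen _ (hpush _ _ (fun t htd => ?_) hNg)
    rw [hvt]
    exact fun e => hz ⟨t, e, htd⟩

end Pool.Agent.MP_bd94e8_al.H89
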