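import Pool.Agent.MP_bd94e8_al.H89.Spec

/-! The mixed case. -/

set_option autoImplicit false
set_option linter.unusedSectionVars false

namespace Pool.Agent.MP_bd94e8_al.H89

open Module Function

namespace MixA

section act
variable {F Pt V : Type} [Field F] [Fintype Pt] [DecidableEq Pt] [AddCommGroup V] [Module F V]

theorem act_mul (a b : Matrix Pt Pt F) (u : Pt → V) : act (a * b) u = act a (act b u) := by
  ext q
  simp only [act, Matrix.mul_apply, Finset.sum_smul, Finset.smul_sum, mul_smul]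
  exact Finset.sum_comm

theorem act_one (u : Pt → V) : act (1 : Matrix Pt Pt F) u = u := by
  ext q
  simp [act, Matrix.one_apply]

theorem act_sum {I : Type} (s : Finset I) (b : I → Matrix Pt Pt F) (u : Pt → V) :
    act (∑ i ∈ s, b i) u = ∑ i ∈ s, act (b i) u := by
  ext q
  simp only [act, Matrix.sum_apply, Finset.sum_smul, Finset.sum_apply]
  exact Finset.sum_comm

/-- The action as an additive map. -/
def actH (b : Matrix Pt Pt F) : (Pt → V) →+ (Pt → V) where
  toFun := act b
  map_zero' := by ext q; simp [act]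
  map_add' u w := by ext q; simp [act, Finset.sum_add_distrib]

theorem act_map {W : Type} [AddCommGroup W] [Module F W] (g : V →ₗ[F] W) (b : Matrix Pt Pt F)
    (u : Pt → V) : act b (fun p => g (u p)) = fun q => g (act b u q) := by
  ext q; simp [act]

end act

variable {k F : Type} [Field k] [Field F] [Algebra k F] {Pt ι : Type} [Fintype Pt]
  [DecidableEq Pt] [Fintype ι]

theorem sum_e (P : Prob k F Pt ι Unit) : ∑ i, P.e i = 1 := by
  ext q p
  rw [Matrix.sum_apply, Finset.sum_eq_single (P.vt p) (fun i _ h => P.e_neg q (Ne.symm h))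
    (by simp), P.e_pos q rfl]

theorem sum_blk (P : Prob k F Pt ι Unit) (b : Matrix Pt Pt F) : ∑ i, ∑ j, P.blk i j b = b := by
  simp only [Prob.blk_eq, ← Finset.sum_mul, ← Finset.mul_sum, sum_e, one_mul, mul_one]

theorem blk_blk (P : Prob k F Pt ι Unit) (i j i' j' : ι) (b : Matrix Pt Pt F) :
    P.blk i' j' (P.blk i j b) = 0 ∨ (i' = i ∧ j' = j ∧ P.blk i' j' (P.blk i j b) = P.blk i j b) := by
  by_cases h : i' = i ∧ j' = j
  · right
    obtain ⟨rfl, rfl⟩ := h
    refine ⟨rfl, rfl, ?_⟩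
    ext q p
    by_cases e : P.vt p = i' ∧ P.vt q = j'
    · rw [P.blk_pos _ e.1 e.2]
    · rw [P.blk_neg _ e, P.blk_neg _ e]
  · left
    ext q p
    by_cases e : P.vt p = i' ∧ P.vt q = j'
    · rw [P.blk_pos _ e.1 e.2, P.blk_neg _ fun e' => h ⟨e.1.symm.trans e'.1, e.2.symm.trans e'.2⟩]
      rfl
    · rw [P.blk_neg _ e]; rfl

theorem e_blk (P : Prob k F Pt ι Unit) (i j : ι) (b : Matrix Pt Pt F) :
    P.e j * P.blk i j b = P.blk i j b := by
  have : P.e j * P.e j = P.e j := by
    have h := P.blk_eq j j 1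
    rw [mul_one] at h
    rw [← h]
    ext q p
    by_cases e : P.vt p = j ∧ P.vt q = j
    · rw [P.blk_pos _ e.1 e.2, P.e_pos _ e.1]
    · rw [P.blk_neg _ e]
      by_cases hp : P.vt p = j
      · rw [P.e_off j (q := q) (p := p) fun h => e ⟨hp, by rw [h]; exact hp⟩]
      · rw [P.e_neg _ hp]
  rw [Prob.blk_eq, ← mul_assoc, ← mul_assoc, this]

variable {V : Type} [AddCommGroup V] [Module F V]

/-- The object generated over a larger algebra. -/
def enl {P : Prob k F Pt ι Unit} (M : Obj P V) (Pf : Prob k F Pt ι Unit) : Obj Pf V where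
  ε := M.ε
  orth := M.orth
  sum := M.sum
  U := AddSubgroup.closure {w | ∃ c ∈ Pf.B, ∃ u ∈ M.U, w = act c u}
  peak u _ p := by
    have := LinearMap.congr_fun M.sum (u p)
    simpa using this
  stab b hb u hu := by
    refine (AddSubgroup.closure_le (AddSubgroup.comap (actH b) (AddSubgroup.closure _))).2 ?_ hu
    rintro _ ⟨c, hc, u, hu, rfl⟩
    exact AddSubgroup.subset_closure ⟨b * c, Pf.B.mul_mem hb hc, u, hu, (act_mul _ _ _).symm⟩

theorem abs {P Pf : Prob k F Pt ι Unit} (M : Obj P V) {a : Matrix Pt Pt F}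
    (h : ∀ c ∈ Pf.B, a * c ∈ P.B) : ∀ w ∈ (enl M Pf).U, act a w ∈ M.U := by
  intro w hw
  refine (AddSubgroup.closure_le (M.U.comap (actH a))).2 ?_ hw
  rintro _ ⟨c, hc, u, hu, rfl⟩
  change act a (act c u) ∈ M.U
  rw [← act_mul]
  exact M.stab _ (h c hc) u hu

theorem key {P Pf : Prob k F Pt ι Unit} (M : Obj P V) {e : V →ₗ[F] V}
    (he : (enl M Pf).IsHom (enl M Pf) e) {T : Set ι} (hT : ((enl M Pf).smd e he).Gen T) (i : ι)
    (h : ∀ j ∈ T, ∀ b ∈ Pf.B, ∀ c ∈ Pf.B, P.e i * (b * Pf.e j) * c ∈ P.B) :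
    ∀ w ∈ (enl M Pf).U, act (P.e i) (fun p => e (w p)) ∈ M.U := by
  intro w hw
  have h1 := hT (fun p => ⟨e (w p), w p, rfl⟩) (he.2 w hw)
  let ι' : (Pt → LinearMap.range e) →+ (Pt → V) :=
    { toFun := fun u p => (u p : V), map_zero' := rfl, map_add' := fun _ _ => rfl }
  refine (AddSubgroup.closure_le ((M.U.comap (actH (P.e i))).comap ι')).2 ?_ h1
  rintro _ ⟨b, hb, j, hj, u, hu, rfl⟩
  have := act_map (LinearMap.range e).subtype (b * Pf.e j) u
  simp only [Submodule.coe_subtype] at this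
  change act (P.e i) (fun p => ((act (b * Pf.e j) u p : LinearMap.range e) : V)) ∈ M.U
  rw [← this, ← act_mul]
  exact abs M (h j hj b hb) _ hu

/-- The same object over another algebra. -/
def same {P : Prob k F Pt ι Unit} (M : Obj P V) (P' : Prob k F Pt ι Unit)
    (h : ∀ b ∈ P'.B, ∀ u ∈ M.U, act b u ∈ M.U) : Obj P' V where
  ε := M.ε
  orth := M.orth
  sum := M.sum
  U := M.U
  peak := M.peak
  stab := h

end MixA

open MixA in
theorem mix (hDec : SDec) (hE : SEnl1) : SMix := by
  classical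
  intro k F _ _ _ _ Pt ι _ _ _ P Pp Pd Pf val ht hFl hG hPp hPd hPf hgen ⟨cp, hcp⟩ ⟨cd, hcd⟩
  obtain ⟨hle, habs⟩ := (hE k F Pt ι P val ht hFl hG).2.2.2 Pf hPf
  refine ⟨max cp cd, fun V _ _ _ M hM => ?_⟩
  obtain ⟨n, e, he, hid, hor, hsum, hind⟩ := hDec k F Pt ι Unit Pf V (enl M Pf)
  have hef : ∀ j, Pf.e j = P.e j := fun j => by simp only [Prob.e, hPf.1]
  have hab : ∀ i j, j ≠ i → ¬ (j ∈ val ∧ i ∈ val) → ∀ b ∈ Pf.B, ∀ c ∈ Pf.B,
      P.e i * (b * Pf.e j) * c ∈ P.B := by
    intro i j hji hv b hb c hc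
    rw [hef, ← mul_assoc, ← Prob.blk_eq]
    have h1 := (((hPf.2 b).1 hb) j i).2.2 hji hv
    exact habs j i hji hv _ ⟨h1, fun _ _ h => (mask_ne h).1⟩ c hc
  have hsub : ∀ u ∈ M.U, u ∈ (enl M Pf).U := fun u hu =>
    AddSubgroup.subset_closure ⟨1, Pf.B.one_mem, u, hu, (act_one u).symm⟩
  -- vertices outside `val` with at most two points
  have h0 : ∀ i, i ∉ val → ¬ Tri3 P.vt i → ∀ w ∈ (enl M Pf).U, act (P.e i) w ∈ M.U := by
    intro i hi ht3
    refine abs M fun c hc => ?_
    have : P.e i * c = ∑ j, P.blk j i c := by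
      simp only [Prob.blk_eq, ← Finset.mul_sum, sum_e, mul_one]
    rw [this]
    refine P.B.sum_mem fun j _ => ?_
    by_cases hji : j = i
    · subst hji
      have h1 := (((hPf.2 c).1 hc) j j).2.1 ⟨rfl, hi⟩
      have h2 : ∀ x ∈ Submodule.span F (P.H j j : Set (Matrix Pt Pt F)),
          ∀ a : F, (a • P.e j) * x ∈ P.B := by
        intro x hx
        induction hx using Submodule.span_induction with
        | mem x hx => exact fun a => P.B.mul_mem (hG.untw j hi ht3 a) hx.1
        | zero => intro a; rw [mul_zero]; exact P.B.zero_mem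
        | add x y _ _ hx hy => intro a; rw [mul_add]; exact P.B.add_mem (hx a) (hy a)
        | smul a' x _ hx =>
          intro a
          rw [mul_smul_comm, ← smul_mul_assoc, smul_smul]
          exact hx _
      have h3 := h2 _ h1 1
      rwa [one_smul, e_blk] at h3
    · exact (((hPf.2 c).1 hc) j i).2.2 hji fun h => hi h.2
  let C : Fin n → Prop := fun s => ((enl M Pf).smd (e s) (he s)).Gen {i | i ∈ val ∨ ¬ Tri3 P.vt i}
  let E : V →ₗ[F] V := ∑ s ∈ Finset.univ.filter C, e s
  let E' : V →ₗ[F] V := ∑ s ∈ Finset.univ.filter (fun s => ¬ C s), e s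
  have hEE : E + E' = LinearMap.id := by
    rw [← hsum]; exact Finset.sum_filter_add_sum_filter_not _ _ _
  have hsumU : ∀ (i : ι) (A : Finset (Fin n)) (w : Pt → V),
      (∀ s ∈ A, act (P.e i) (fun p => e s (w p)) ∈ M.U) →
      act (P.e i) (fun p => (∑ s ∈ A, e s) (w p)) ∈ M.U := by
    intro i A w h
    have : (fun p => (∑ s ∈ A, e s) (w p)) = ∑ s ∈ A, fun p => e s (w p) := by
      ext p; simp
    rw [this]
    exact sum_mem (S := M.U.comap (actH (P.e i))) h
  have h1 : ∀ i, i ∉ val → ∀ w ∈ (enl M Pf).U, act (P.e i) (fun p => E (w p)) ∈ M.U := by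
    intro i hi w hw
    refine hsumU i _ w fun s hs => ?_
    by_cases ht3 : Tri3 P.vt i
    · refine key M (he s) (Finset.mem_filter.1 hs).2 i (fun j hj => hab i j ?_ fun h => hi h.2) w hw
      rintro rfl
      exact hj.elim hi fun h => h ht3
    · exact h0 i hi ht3 _ ((he s).2 w hw)
  have h2 : ∀ i, i ∈ val → ∀ w ∈ (enl M Pf).U, act (P.e i) (fun p => E' (w p)) ∈ M.U := by
    intro i hi w hw
    refine hsumU i _ w fun s hs => ?_
    have hg := (hgen _ _ (hind s)).resolve_right (Finset.mem_filter.1 hs).2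
    refine key M (he s) hg i (fun j hj => hab i j ?_ fun h => hj h.1) w hw
    rintro rfl
    exact hj hi
  have hdec : ∀ w : Pt → V, (∀ i, act (P.e i) w ∈ M.U) → w ∈ M.U := by
    intro w h
    rw [← act_one (F := F) w, ← sum_e P, act_sum]
    exact sum_mem fun i _ => h i
  have hhom : M.IsHom M E := by
    refine ⟨fun o => ?_, fun u hu => hdec _ fun i => ?_⟩
    · have : M.ε o = LinearMap.id := by rw [← M.sum]; simp
      rw [this]; simp
    · by_cases hi : i ∈ val
      · have : (fun p => E (u p)) = u - fun p => E' (u p) := by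
          ext p
          have := LinearMap.congr_fun hEE (u p)
          simp only [LinearMap.add_apply, LinearMap.id_apply] at this
          simp only [Pi.sub_apply]
          exact eq_sub_of_add_eq this
        rw [this]
        exact sub_mem (S := AddSubgroup _) (H := M.U.comap (actH (P.e i)))
          (M.stab _ (P.e_mem i) u hu) (h2 i hi u (hsub u hu))
      · exact h1 i hi u (hsub u hu)
  have hidem : E ∘ₗ E = E := by
    change E * E = E
    simp only [E, Finset.sum_mul_sum]
    refine Finset.sum_congr rfl fun s hs => ?_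
    exact (Finset.sum_eq_single s (fun t _ h => hor s t (Ne.symm h)) fun h => (h hs).elim).trans
      (hid s)
  have hblk : ∀ (b : Matrix Pt Pt F) (u : Pt → V), (∀ i j, act (P.blk i j b) u ∈ M.U) →
      act b u ∈ M.U := by
    intro b u h
    rw [← sum_blk P b, act_sum]
    refine sum_mem fun i _ => ?_
    rw [act_sum]
    exact sum_mem fun j _ => h i j
  have hfat : ∀ i j b, P.blk i j b ∈ Pf.B → (∀ w ∈ (enl M Pf).U, act (P.e j) w ∈ M.U) →
      ∀ u ∈ M.U, act (P.blk i j b) u ∈ M.U := by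
    intro i j b hb h u hu
    rw [← e_blk, act_mul]
    exact h _ (AddSubgroup.subset_closure ⟨_, hb, u, hu, rfl⟩)
  rcases hM.2 E hhom hidem with h | h
  · rw [h, zero_add] at hEE
    refine le_max_of_le_right (hcd V (same M Pd fun b hb u hu => hblk b u fun i j => ?_) hM)
    by_cases hv : i ∈ val ∧ j ∈ val
    · refine hfat i j b ((hPf.2 _).2 fun i' j' => ?_) (fun w hw => ?_) u hu
      · rcases blk_blk P i j i' j' b with e | ⟨rfl, rfl, e⟩ <;> rw [e]
        · exact ⟨fun _ _ => rfl, fun _ => zero_mem _, fun _ _ => zero_mem _⟩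
        · exact ⟨(((hPd.2 b).1 hb) _ _).1, fun h => (h.2 hv.1).elim, fun _ h => (h hv).elim⟩
      · simpa [hEE] using h2 j hv.2 w hw
    · exact M.stab _ ((((hPd.2 b).1 hb) i j).2 hv) u hu
  · refine le_max_of_le_left (hcp V (same M Pp fun b hb u hu => hblk b u fun i j => ?_) hM)
    by_cases hv : i = j ∧ i ∉ val
    · refine hfat i j b ((hPf.2 _).2 fun i' j' => ?_) (fun w hw => ?_) u hu
      · rcases blk_blk P i j i' j' b with e | ⟨rfl, rfl, e⟩ <;> rw [e]
        · exact ⟨fun _ _ => rfl, fun _ => zero_mem _, fun _ _ => zero_mem _⟩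
        · exact ⟨fun h => (hv.2 h.1).elim, (((hPp.2 b).1 hb) _ _).1, fun h => (h hv.1).elim⟩
      · simpa [h] using h1 j (hv.1 ▸ hv.2) w hw
    · exact M.stab _ ((((hPp.2 b).1 hb) i j).2 hv) u hu

end Pool.Agent.MP_bd94e8_al.H89
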